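import Pool.Agent.Helper25.UG.Bv2
import Pool.Agent.Helper69.UV.Defs

/-!
# UV: block M2 (Barban-Vehov)
-/

set_option autoImplicit false
open ArithmeticFunction Finset
open Pool.Agent.Helper57.LH Pool.Agent.Helper25.UG Pool.Agent.Helper69.UV

namespace Pool.Agent.Helper25.UV

lemma PR_eq {δ T c : ℝ} (hT : 0 < T) : PR δ T c = prs (T ^ (δ / c)) (T ^ (1 / (δ * c))) := by
  have h1 : 0 < T ^ (1 / (δ * c)) := Real.rpow_pos_of_pos hT _
  ext p
  rw [mem_prs h1.le]
  unfold PR
  rw [mem_filter, mem_range]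
  constructor
  · rintro ⟨h2, h3, h4⟩
    exact ⟨h4, (Nat.le_floor_iff h1.le).mp (by omega), h3⟩
  · rintro ⟨h2, h3, h4⟩
    exact ⟨Nat.lt_succ_of_le ((Nat.le_floor_iff h1.le).mpr h3), h4, h2⟩

/-- `∑ 1/p` over the primes of the resonator. -/
lemma sum_inv_le {δ : ℝ} (hδ : 0 < δ) (hδ1 : δ ≤ 1 / 32) : ∃ C : ℝ, ∀ T, Real.exp (Real.exp 1) ≤ T →
    ∀ c, Adm δ 1 T c → ∑ p ∈ PR δ T c, (1 / p : ℝ) ≤ C := by
  obtain ⟨C, hC, hU⟩ := inv_upper
  refine ⟨1 / δ ^ 2 + C, fun T hT c hA => ?_⟩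
  have hT0 : 0 < T := (Real.exp_pos _).trans_le hT
  have hL : Real.exp 1 ≤ Real.log T := (Real.le_log_iff_exp_le hT0).mpr hT
  have hL0 : 0 < Real.log T := (Real.exp_pos _).trans_le hL
  have hLL : 1 ≤ Real.log (Real.log T) := (Real.le_log_iff_exp_le hL0).mpr hL
  have hc1 : 1 ≤ c := hA.1
  have hc : 0 < c := by linarith
  have hT1 : 1 < T := by
    have := Real.add_one_le_exp (Real.exp 1)
    have := Real.exp_pos 1
    linarith
  have h1 : 64 * c ≤ δ ^ 2 * Real.log T := by
    refine le_trans ?_ hA.2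
    nlinarith
  have hδ2 : δ / c ≤ 1 / (δ * c) := by
    rw [div_le_div_iff₀ hc (by positivity)]
    have h0 : δ * δ ≤ 1 := by nlinarith
    calc δ * (δ * c) = (δ * δ) * c := by ring
      _ ≤ 1 * c := mul_le_mul_of_nonneg_right h0 hc.le
  rw [PR_eq hT0]
  have h2 := hU (T ^ (δ / c)) (T ^ (1 / (δ * c))) (Real.one_lt_rpow hT1 (by positivity))
    (Real.rpow_le_rpow_of_exponent_le hT1.le hδ2)
  refine h2.trans ?_
  rw [← Real.rpow_sub hT0, Real.log_rpow hT0, Real.log_rpow hT0, div_le_iff₀ (by positivity)]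
  have h3 : (1 / δ ^ 2 + C) * (δ / c * Real.log T) =
      1 / (δ * c) * Real.log T + C * (δ / c * Real.log T) := by
    field_simp
  rw [h3]
  have h4 : 1 ≤ δ / c * Real.log T := by
    rw [div_mul_eq_mul_div, le_div_iff₀ hc]
    nlinarith
  have h5 : 0 ≤ δ / c * Real.log T := by linarith
  have h6 : C * 1 ≤ C * (δ / c * Real.log T) := mul_le_mul_of_nonneg_left h4 hC.le
  linarith

/-- the weights of the project are `am (T^(δ/16))`. -/
lemma ma_eq {δ T c : ℝ} (hδ : 0 < δ) (hT : 1 < T) {d : ℕ} (hd : d ≠ 0) :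
    ma δ T c d = am (T ^ (δ / 16)) (pS (PR δ T c)) d := by
  have hT0 : 0 < T := by linarith
  have hL : 0 < Real.log T := Real.log_pos hT
  have hd0 : (0:ℝ) < d := by exact_mod_cast Nat.pos_of_ne_zero hd
  have hX : 0 < T ^ (δ / 16) := Real.rpow_pos_of_pos hT0 _
  have hprime : ∀ p ∈ PR δ T c, p.Prime := fun p hp => ((mem_filter.mp hp).2).1
  have hcop : (∀ p ∈ PR δ T c, ¬ p ∣ d) ↔ d.Coprime (pS (PR δ T c)) := by
    unfold pS
    rw [Nat.coprime_prod_right_iff]
    refine forall₂_congr fun p hp => ?_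
    rw [Nat.coprime_comm, (hprime p hp).coprime_iff_not_dvd]
  unfold ma am
  by_cases h : d.Coprime (pS (PR δ T c))
  · rw [if_pos (hcop.mpr h), if_pos h]
    unfold amol
    congr 1
    rw [Real.log_div hX.ne' hd0.ne', Real.log_div (Real.sqrt_pos.mpr hX).ne' hd0.ne', Real.log_sqrt hX.le,
      Real.log_rpow hT0]
    set M := δ * Real.log T with hM
    have hM0 : 0 < M := by positivity
    have hM2 : δ / 16 * Real.log T = 1 / 16 * M := by rw [hM]; ring
    rw [hM2]
    rcases le_total (Real.log d) (M / 32) with h1 | h1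
    · have e1 : min 1 (2 - 32 * Real.log d / M) = 1 := by
        apply min_eq_left
        have : 32 * Real.log d / M ≤ 1 := by rw [div_le_iff₀ hM0]; linarith
        linarith
      have e2 : max 0 (1 / 16 * M - Real.log d) = 1 / 16 * M - Real.log d :=
        max_eq_right (by linarith)
      have e3 : max 0 (1 / 16 * M / 2 - Real.log d) = 1 / 16 * M / 2 - Real.log d :=
        max_eq_right (by linarith)
      rw [e1, e2, e3, max_eq_right (by norm_num)]
      field_simp
      ring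
    · have e1 : min 1 (2 - 32 * Real.log d / M) = 2 - 32 * Real.log d / M := by
        apply min_eq_right
        have : 1 ≤ 32 * Real.log d / M := by rw [le_div_iff₀ hM0]; linarith
        linarith
      have e3 : max 0 (1 / 16 * M / 2 - Real.log d) = 0 := max_eq_left (by linarith)
      rw [e1, e3]
      rcases le_total (Real.log d) (M / 16) with h2 | h2
      · have e2 : max 0 (1 / 16 * M - Real.log d) = 1 / 16 * M - Real.log d :=
          max_eq_right (by linarith)
        have e4 : 32 * Real.log d / M ≤ 2 := by rw [div_le_iff₀ hM0]; linarith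
        rw [e2, max_eq_right (by linarith)]
        field_simp
        ring
      · have e2 : max 0 (1 / 16 * M - Real.log d) = 0 := max_eq_left (by linarith)
        have e4 : 2 ≤ 32 * Real.log d / M := by rw [le_div_iff₀ hM0]; linarith
        rw [e2, max_eq_left (by linarith)]
        simp
  · rw [if_neg (fun h1 => h (hcop.mp h1)), if_neg h]

/-- M2: Barban-Vehov at `1/2 + 1/log T`. -/
theorem bv {δ : ℝ} (hδ : 0 < δ) (hδ1 : δ ≤ 1 / 32) : ∃ C c0 T0 : ℝ, 0 < C ∧ ∀ T, T0 ≤ T → ∀ c, Adm δ c0 T c →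
    ∀ S : Finset ℕ, (∀ n ∈ S, n ≠ 0) →
    ∑ n ∈ S, (∑ d ∈ n.divisors, ma δ T c d) ^ 2 * (n : ℝ) ^ (-(1 + 2 / Real.log T)) ≤ C := by
  obtain ⟨C1, hC1⟩ := sum_inv_le hδ hδ1
  refine ⟨16 / δ * (CQ * Real.exp (2 * C1) ^ 2), 1, max (Real.exp (Real.exp 1)) (Real.exp (32 / δ)),
    by have := CQ_pos; positivity, fun T hT c hA S hS => ?_⟩
  have hT1 : Real.exp (32 / δ) ≤ T := (le_max_right _ _).trans hT
  have hT0 : 0 < T := (Real.exp_pos _).trans_le hT1
  have hL1 : 32 / δ ≤ Real.log T := (Real.le_log_iff_exp_le hT0).mpr hT1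
  have hδL : 32 ≤ δ * Real.log T := by rwa [div_le_iff₀' hδ] at hL1
  have hL : 32 ≤ Real.log T := by
    refine le_trans ?_ hL1
    rw [le_div_iff₀ hδ]
    linarith
  have hTone : 1 < T := by
    have h1 : (1:ℝ) < Real.exp (32 / δ) := Real.one_lt_exp_iff.mpr (by positivity)
    linarith
  have hfa := hC1 T ((le_max_left _ _).trans hT) c hA
  set X := T ^ (δ / 16) with hX
  have hlX : Real.log X = δ * Real.log T / 16 := by rw [hX, Real.log_rpow hT0]; ring
  have hXp : 0 < X := Real.rpow_pos_of_pos hT0 _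
  have hX3 : 3 ≤ X := by
    have h1 : Real.exp 2 ≤ X := by
      rw [← Real.le_log_iff_exp_le hXp, hlX]; linarith
    have h2 := Real.add_one_le_exp (2:ℝ)
    linarith
  have hprime : ∀ p ∈ PR δ T c, p.Prime := fun p hp => ((mem_filter.mp hp).2).1
  set q0 := pS (PR δ T c) with hq0
  have hsq : Squarefree q0 := pS_squarefree hprime
  set ε := 2 / Real.log T with hε
  have hL0 : 0 < Real.log T := by linarith
  have hε0 : 0 < ε := by positivity
  have hεX : ε * Real.log X ≤ 1 := by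
    rw [hlX, hε]
    have : 2 / Real.log T * (δ * Real.log T / 16) = δ / 8 := by field_simp; norm_num
    rw [this]; linarith
  have hterm : ∀ n ∈ S, (∑ d ∈ n.divisors, ma δ T c d) ^ 2 * (n : ℝ) ^ (-(1 + 2 / Real.log T)) =
      bm X q0 n ^ 2 * ew ε n := by
    intro n hn
    have hn0 := hS n hn
    have hn1 : (0:ℝ) < n := by exact_mod_cast Nat.pos_of_ne_zero hn0
    rw [← sum_am_eq (by linarith) hn0]
    congr 1
    · congr 1
      refine sum_congr rfl fun d hd => ?_
      exact ma_eq hδ hTone (Nat.pos_of_mem_divisors hd).ne'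
    · unfold ew
      rw [Real.rpow_def_of_pos hn1, hε]
      ring_nf
  rw [sum_congr rfl hterm]
  obtain ⟨K, hK⟩ : ∃ K : ℕ, S ⊆ Ioc 0 K := by
    refine ⟨S.sup id, fun n hn => ?_⟩
    rw [mem_Ioc]
    exact ⟨Nat.pos_of_ne_zero (hS n hn), le_sup (f := id) hn⟩
  calc _ ≤ ∑ n ∈ Ioc 0 K, bm X q0 n ^ 2 * ew ε n := by
        apply sum_le_sum_of_subset_of_nonneg hK
        intro n _ _
        exact mul_nonneg (sq_nonneg _) (ew_pos _ _).le
    _ ≤ (1 + 1 / ε) * (CQ * kap q0 ^ 2 / Real.log X) := bvq hX3 hε0 hεX hsq K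
    _ ≤ (1 + 1 / ε) * (CQ * Real.exp (2 * C1) ^ 2 / Real.log X) := by
        have h1 : kap q0 ≤ Real.exp (2 * C1) := kap_le_of_sum hprime hfa
        have h2 := (kap_pos q0).le
        have h3 := CQ_pos
        have h4 : 0 < Real.log X := by rw [hlX]; linarith
        gcongr
    _ ≤ _ := by
        have h3 := CQ_pos
        rw [hlX, hε]
        have h5 : 1 + 1 / (2 / Real.log T) ≤ Real.log T := by
          rw [one_div_div]; linarith
        calc _ ≤ Real.log T * (CQ * Real.exp (2 * C1) ^ 2 / (δ * Real.log T / 16)) := by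
              gcongr
          _ = _ := by field_simp

end Pool.Agent.Helper25.UV
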